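import Pool.Agent.H.MP_e449c6_nt.C

namespace Pool.Agent.Results.MP_0e3347_nt.Yes

open NumberField Pool.Agent.H.MP_4f0cf1_nt Pool.Agent.H.MP_e449c6_nt

/-- The determinant `D_p`; row `j` and column `k` of `Fin n` stand for `j + 1` and `k + 1`. -/
noncomputable def D (p : ℕ) [Fact p.Prime] (x y z w : ℂ) : ℂ :=
  (Matrix.of fun j k : Fin ((p - 1) / 2) =>
    x + (legendreSym p (((j : ℕ) + 1) - ((k : ℕ) + 1) + 1) : ℂ) +
    (legendreSym p ((j : ℕ) + 1) : ℂ) * y + (legendreSym p ((k : ℕ) + 1) : ℂ) * z +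
    (legendreSym p (((j : ℕ) + 1) * ((k : ℕ) + 1)) : ℂ) * w).det

theorem result (p : ℕ) [Fact p.Prime] (hp : 3 < p) (K : Type) [Field K] [NumberField K]
    (hK : Module.finrank ℚ K = 2) (s : K) :
    (p % 4 = 1 → s ^ 2 = p → ∀ (φ : K →+* ℝ) (ε : (𝓞 K)ˣ), 1 < φ ε →
      (∀ η : (𝓞 K)ˣ, 1 < φ η → φ ε ≤ φ η) → ∃ a b : ℤ,
        φ ε ^ ((2 - legendreSym p 2) * classNumber K) = a + b * √p ∧ ∀ x y z w : ℂ, D p x y z w =
          legendreSym p 2 * (((p : ℂ) - 1) / 2) * ((y + 1) * z - w * x) +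
          (p * b - a) * ((w + 1) * x - y * z) +
          legendreSym p 2 * (b - a) * (w * (1 - x) + (y + 1) * (z + 1))) ∧
    (p % 4 = 3 → s ^ 2 = -p → ∀ x y z w : ℂ, D p x y z w =
      (w + 1) * x - y * z + legendreSym p 2 * ((y + 1) * (z - 1) - w * (x + 1)) +
        (-1) ^ ((classNumber K - 1) / 2) * (((p : ℂ) + 1) / 2) * (w * x - (y + 1) * z)) := by
  have ho := (Fact.out : p.Prime).eq_two_or_odd.resolve_left (by omega)
  obtain ⟨m, h1⟩ : ∃ m, p = 2 * (m + 2) + 1 := ⟨(p - 5) / 2, by omega⟩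
  have h2 : (p - 1) / 2 = m + 2 := by omega
  unfold D
  rw [h2]
  simp only [c_leg, Int.cast_sub, Int.cast_mul, Int.cast_natCast, c_mul, Int.cast_ofNat,
    Int.cast_add, Int.cast_one, add_sub_add_right_eq_sub, sub_add_eq_add_sub (_ : ZMod p)]
  refine ⟨fun h hs φ ε e1 e2 => ?_, fun h hs => shifted_three h1 h (by rw [← mul_pow]; simp)
    (E_three h1 h hp hK hs)⟩
  obtain ⟨a, b, a1, a2⟩ := ints h1 h
  exact ⟨a, b, unit_eq h1 h (a2.symm.trans (E_one h1 h hK hs φ ε e1 e2)), shifted_one h1 h a1 a2⟩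

end Pool.Agent.Results.MP_0e3347_nt.Yes
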